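import Mathlib
import Pool.Agent.helper3.JC.Defs
import Pool.Agent.helper3.JC.Bool

/-!
The chain of varieties generated by the free Jordan rings of finite rank, in characteristic two.
-/

namespace Pool.Agent.Results.MP_eeb5e9_al.JordanCharTwo

open Pool.Agent.helper3.JC

universe u v

/-- Let `C_n` be the variety generated by the free Jordan ring on `n` generators, `n ≥ 2`.
Part 1: let `K` be a commutative ring with an element `c` such that `c² - c` is invertible (for
example a field with more than two elements). A `K`-algebra `R` with `2 R = 0` lies in `C_n` if and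
only if it is a Jordan ring. Part 2: every commutative ring with `2 R = 0` all of whose squares lie
in the nucleus lies in `C_n`. Part 3: every commutative nonassociative ring with `x² = x` lies in
`C_n`. -/
theorem result (n : ℕ) (hn : 2 ≤ n) :
    (∀ (K : Type v) [CommRing K] (c : K), IsUnit (c * c - c) →
      ∀ (R : Type u) [NonUnitalNonAssocRing R] [Module K R] [IsScalarTower K R R]
        [SMulCommClass K R R], (∀ x : R, 2 • x = 0) → (InVariety n R ↔ JordanRing R)) ∧
    (∀ (R : Type u) [NonUnitalNonAssocRing R], (∀ x : R, 2 • x = 0) →
      (∀ x y : R, x * y = y * x) →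
      (∀ x y z : R, ((x * x) * y) * z = (x * x) * (y * z)) → InVariety n R) ∧
    (∀ (R : Type u) [NonUnitalNonAssocRing R],
      (∀ x y : R, x * y = y * x) → (∀ x : R, x * x = x) → InVariety n R) := by
  refine ⟨?_, ?_, ?_⟩
  · intro K _ c hc R _ _ _ _ h2
    refine ⟨jordanRing_of_inVariety n R, fun hJ => ?_⟩
    have h2' : ∀ x : R, x + x = 0 := fun x => by rw [← two_nsmul]; exact h2 x
    exact inVariety_of_nuclear R h2 hJ.1
      (fun x y z => nuclear_of_scalar h2' hJ c hc x y z) n hn
  · intro R _ h2 hcomm hN
    exact inVariety_of_nuclear R h2 hcomm hN n hn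
  · intro R _ hcomm hb
    exact inVariety_of_boolean R hcomm hb n hn

end Pool.Agent.Results.MP_eeb5e9_al.JordanCharTwo
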