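import Mathlib
import Pool.Agent.helper53.RA2.Defs
import Pool.Agent.helper53.RA2.Var

/-!
The chain of varieties generated by the free right alternative rings of finite rank: exact
axioms of its first term, and the rings of characteristic two in every term.
-/

namespace Pool.Agent.Results.MP_eeb5e9_al.RightAltRankOne

open Pool.Agent.helper53.RA2

universe u

/-- The variety `C_1` generated by the free right alternative ring on one generator consists
exactly of the right alternative rings satisfying `2 (x y - y x) = 0` and
`2 ((x y) z - x (y z)) = 0`; consequently every term `C_n`, `n ≥ 1`, of the chain contains all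
right alternative rings of characteristic two. -/
theorem result :
    (∀ (R : Type u) [NonUnitalNonAssocRing R], InVariety 1 R ↔
      (IsRA R ∧ (∀ x y : R, 2 • (x * y - y * x) = 0) ∧
        ∀ x y z : R, 2 • ((x * y) * z - x * (y * z)) = 0)) ∧
    (∀ n : ℕ, 1 ≤ n → ∀ (R : Type u) [NonUnitalNonAssocRing R], (∀ x : R, 2 • x = 0) →
      (InVariety n R ↔ IsRA R)) := by
  constructor
  · intro R _
    constructor
    · intro h
      refine ⟨isRA_of_inVariety 1 R h, fun x y => ?_, fun x y z => ?_⟩
      · rw [smul_sub, two_nsmul, two_nsmul, sub_eq_zero]
        exact two_comm_of_inVariety R h x y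
      · rw [smul_sub, two_nsmul, two_nsmul, sub_eq_zero]
        exact two_assoc_of_inVariety R h x y z
    · rintro ⟨hR, hc, ha⟩
      refine inVariety_one_of R hR (fun x y => ?_) (fun x y z => ?_)
      · have := hc x y
        rwa [smul_sub, two_nsmul, two_nsmul, sub_eq_zero] at this
      · have := ha x y z
        rwa [smul_sub, two_nsmul, two_nsmul, sub_eq_zero] at this
  · intro n hn R _ h2
    exact ⟨isRA_of_inVariety n R,
      inVariety_of_isRA n hn R (fun x => by rw [← two_nsmul]; exact h2 x)⟩

end Pool.Agent.Results.MP_eeb5e9_al.RightAltRankOne
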